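import Mathlib
import Pool.Agent.Lib.MP_2194ec_nt.GAL.BDefs2

set_option autoImplicit false

/-!
# Row POW: if an iterate of `f` is `(z - c) ^ Q + c` then so is `f`
-/

namespace Pool.DynLehmer.GAL.H75
open Polynomial Pool.DynLehmer.GAL

section itp

variable {K : Type} [Field K]

theorem itp_zero (f : K[X]) : itp f 0 = X := rfl

theorem itp_succ (f : K[X]) (k : ℕ) : itp f (k + 1) = f.comp (itp f k) := by
  rw [itp, Function.iterate_succ_apply']
  rfl

theorem itp_succ' (f : K[X]) : ∀ k, itp f (k + 1) = (itp f k).comp f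
  | 0 => by rw [itp_succ, itp_zero, comp_X, X_comp]
  | k + 1 => by rw [itp_succ, itp_succ' f k, ← comp_assoc, ← itp_succ, ← itp_succ' f k]

theorem itp_map {F : Type} [Field F] (φ : K →+* F) (f : K[X]) :
    ∀ k, (itp f k).map φ = itp (f.map φ) k
  | 0 => by rw [itp_zero, itp_zero, map_X]
  | k + 1 => by rw [itp_succ, itp_succ, map_comp, itp_map φ f k]

/-- a divisor of a power -/
theorem sub_eq_pow {h g : K[X]} {c : K} {Q : ℕ} (hQ : 0 < Q) (hg : g.Monic)
    (hd : 0 < g.natDegree) (hh : h.comp g = (X - C c) ^ Q + C c) :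
    g - C (g.eval c) = (X - C c) ^ g.natDegree := by
  have h1 : (g - C (g.eval c)) ∣ (X - C c) ^ Q := by
    have h2 := sub_dvd_eval_sub g (C (g.eval c)) (h.map C)
    rw [eval_map, eval_map] at h2
    have h3 : h.eval₂ C g = h.comp g := rfl
    have h4 : h.eval₂ C (C (g.eval c)) = h.comp (C (g.eval c)) := rfl
    rw [h3, h4, comp_C, ← eval_comp, hh] at h2
    have h5 : ((X - C c) ^ Q + C c : K[X]).eval c = c := by
      simp [hQ.ne']
    rw [h5, add_sub_cancel_right] at h2
    exact h2
  have hm : (g - C (g.eval c)).Monic := by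
    apply hg.sub_of_left
    exact (degree_C_le).trans_lt (natDegree_pos_iff_degree_pos.1 hd)
  have hdeg : (g - C (g.eval c)).natDegree = g.natDegree := natDegree_sub_C
  obtain ⟨i, _, hi⟩ := (dvd_prime_pow (prime_X_sub_C c) Q).1 h1
  have hi' := eq_of_monic_of_associated hm ((monic_X_sub_C c).pow i) hi
  have h6 : i = g.natDegree := by
    rw [← hdeg, hi', natDegree_pow, natDegree_X_sub_C, mul_one]
  rw [hi', h6]

end itp

theorem pow_core {F : Type} [Field F] [CharZero F] (q : ℕ) (g : F[X]) (hq : 2 ≤ q)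
    (hm : g.Monic) (hd : g.natDegree = q) (k : ℕ) (c : F) (hk : 0 < k)
    (h : itp g k = (X - C c) ^ (q ^ k) + C c) : g = (X - C c) ^ q + C c := by
  have hQ : 0 < q ^ k := pow_pos (by omega) k
  obtain ⟨j, rfl⟩ : ∃ j, k = j + 1 := ⟨k - 1, by omega⟩
  have h1 : g - C (g.eval c) = (X - C c) ^ q := by
    have := sub_eq_pow (h := itp g j) (g := g) hQ hm (by omega) (by rw [← itp_succ', h])
    rwa [hd] at this
  have h1' : g = (X - C c) ^ q + C (g.eval c) := by rw [← h1]; ring
  rcases Nat.eq_zero_or_pos j with rfl | hj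
  · rw [itp_succ, itp_zero, comp_X, zero_add, pow_one] at h
    exact h
  obtain ⟨l, rfl⟩ : ∃ l, j = l + 1 := ⟨j - 1, by omega⟩
  set d : F := g.eval c - c with hdd
  have hgg : (g.comp g).natDegree = q ^ 2 := by rw [natDegree_comp, hd, sq]
  have hgm : (g.comp g).Monic := hm.comp hm (by omega)
  have h2 : g.comp g - C ((g.comp g).eval c) = (X - C c) ^ (q ^ 2) := by
    have := sub_eq_pow (h := itp g l) (g := g.comp g) hQ hgm (by rw [hgg]; positivity)
      (by rw [← comp_assoc, ← itp_succ', ← itp_succ', h])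
    rwa [hgg] at this
  have h3 : g.comp g = ((X - C c) ^ q + C d) ^ q + C (g.eval c) := by
    conv_lhs => rw [h1']
    rw [add_comp, pow_comp, sub_comp, X_comp, C_comp, C_comp, hdd, C_sub]
    have : (X - C c) ^ q + C (eval c g) - C c = (X - C c) ^ q + (C (eval c g) - C c) := by ring
    rw [this]
  have h4 : (g.comp g).eval c = d ^ q + g.eval c := by
    rw [h3]
    simp [show q ≠ 0 by omega]
  rw [h4, h3, C_add, C_pow] at h2
  have h5 : ((X : F[X]) ^ q + C d) ^ q - C d ^ q = X ^ (q ^ 2) := by
    have := congrArg (fun P : F[X] => P.comp (X + C c)) h2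
    simp only [sub_comp, add_comp, pow_comp, X_comp, C_comp, add_sub_cancel_right] at this
    rw [← this]
    ring
  have h6 : (X + C d : F[X]) ^ q - C d ^ q = X ^ q := by
    apply expand_injective (R := F) (show 0 < q by omega)
    rw [map_sub, map_pow, map_pow, map_pow, map_add, expand_X, expand_C, h5, ← pow_mul, sq]
  have h7 := congrArg (fun P : F[X] => (derivative P).eval 0) h6
  simp only [derivative_sub, derivative_pow, derivative_add, derivative_X, derivative_C,
    eval_mul, eval_pow, eval_add, eval_X, eval_C, add_zero, mul_one, zero_add,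
    mul_zero, sub_zero] at h7
  rw [zero_pow (by omega), mul_zero] at h7
  have h8 : d = 0 := by
    rcases mul_eq_zero.1 h7 with h9 | h9
    · exact absurd h9 (Nat.cast_ne_zero.2 (by omega))
    · exact pow_eq_zero_iff (by omega) |>.1 h9
  have h9 : g.eval c = c := by
    rw [hdd, sub_eq_zero] at h8
    exact h8
  rw [h9] at h1'
  exact h1'

/-- Row POW. -/
theorem pow : PowStatement := by
  intro K F _ _ _ _ q f hq hm hd k c hk h
  have : CharZero F := charZero_of_injective_algebraMap (algebraMap K F).injective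
  rw [itp_map] at h
  have h1 := pow_core q (f.map (algebraMap K F)) hq (hm.map _) (by rw [natDegree_map, hd]) k c hk h
  have hq0 : (q : K) ≠ 0 := Nat.cast_ne_zero.2 (by omega)
  have hc : algebraMap K F (-(f.coeff (q - 1)) / q) = c := by
    have h2 := congrArg (fun P : F[X] => P.coeff (q - 1)) h1
    have h3 : ((X - C c : F[X]) ^ q).coeff (q - 1) = -c * q := by
      rw [sub_eq_add_neg, ← C_neg, coeff_X_add_C_pow, show q - (q - 1) = 1 by omega, pow_one,
        Nat.choose_symm_of_eq_add (show q = q - 1 + 1 by omega), Nat.choose_one_right]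
    simp only [coeff_map, coeff_add, coeff_C] at h2
    rw [if_neg (by omega), add_zero, h3] at h2
    rw [map_div₀, map_neg, h2, map_natCast]
    have : (q : F) ≠ 0 := Nat.cast_ne_zero.2 (by omega)
    field_simp
  refine ⟨-(f.coeff (q - 1)) / q, ?_⟩
  apply map_injective (algebraMap K F) (algebraMap K F).injective
  rw [h1, Polynomial.map_add, Polynomial.map_pow, Polynomial.map_sub, map_X, map_C, hc]

end Pool.DynLehmer.GAL.H75
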